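import Pool.Agent.Helper68_Leo4.Basic

/-!
Squad leo4, module CUS: few normalised quadruples with small `|N a|`.
-/

set_option autoImplicit false

namespace Pool.Agent.Leo4.H56

theorem gold_lt : g < 1.6181 := by
  have h1 : Real.sqrt 5 < 2.2362 := by
    rw [Real.sqrt_lt' (by norm_num)]
    norm_num
  show (1 + Real.sqrt 5) / 2 < 1.6181
  linarith

theorem gold_gt : 1.618 < g := by
  have h1 : 2.236 < Real.sqrt 5 := by
    rw [Real.lt_sqrt (by norm_num)]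
    norm_num
  show 1.618 < (1 + Real.sqrt 5) / 2
  linarith

/-- the real inequality behind the bound for `a` -/
theorem bnd_real {a X P1 P2 M1 M2 τ : ℝ} (hP1 : 0 < P1) (_ : 0 < P2) (hM1 : 0 < M1)
    (_ : 0 < M2) (hbP : P1 ≤ g ^ 2 * P2) (hbM : M2 ≤ g ^ 2 * M1)
    (h4 : 4 * (P1 * P2) ^ 2 ≤ M1 * M2) (hτ : 0 < τ) (hle : M1 * M2 ≤ τ ^ 4)
    (hid : X ^ 2 + a ^ 2 * M1 = 4 * P1 ^ 3) : a ^ 2 ≤ 16 * τ := by
  have hg : 0 < g := Real.goldenRatio_pos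
  have s1 : P1 ^ 2 ≤ g ^ 2 * (P1 * P2) := by nlinarith
  have s1' : P1 ^ 4 ≤ g ^ 4 * (P1 * P2) ^ 2 := by
    have := pow_le_pow_left₀ (by positivity) s1 2
    calc P1 ^ 4 = (P1 ^ 2) ^ 2 := by ring
      _ ≤ _ := this
      _ = _ := by ring
  have s2 : (2 * P1 ^ 2) ^ 2 ≤ (g ^ 3 * M1) ^ 2 := by
    calc (2 * P1 ^ 2) ^ 2 = 4 * P1 ^ 4 := by ring
      _ ≤ 4 * (g ^ 4 * (P1 * P2) ^ 2) := by linarith
      _ = g ^ 4 * (4 * (P1 * P2) ^ 2) := by ring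
      _ ≤ g ^ 4 * (M1 * M2) := mul_le_mul_of_nonneg_left h4 (by positivity)
      _ ≤ g ^ 4 * (M1 * (g ^ 2 * M1)) :=
          mul_le_mul_of_nonneg_left (mul_le_mul_of_nonneg_left hbM hM1.le) (by positivity)
      _ = _ := by ring
  have s3 : 2 * P1 ^ 2 ≤ g ^ 3 * M1 := abs_le_of_sq_le_sq' s2 (by positivity) |>.2
  have s4 : a ^ 2 ≤ 2 * g ^ 3 * P1 := by
    have h1 : a ^ 2 * M1 ≤ (2 * g ^ 3 * P1) * M1 := by
      have h2 : a ^ 2 * M1 ≤ 4 * P1 ^ 3 := by nlinarith [sq_nonneg X]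
      have h3 : 4 * P1 ^ 3 = 2 * P1 * (2 * P1 ^ 2) := by ring
      have h5 : 2 * P1 * (2 * P1 ^ 2) ≤ 2 * P1 * (g ^ 3 * M1) :=
        mul_le_mul_of_nonneg_left s3 (by positivity)
      calc _ ≤ _ := h2
        _ = _ := h3
        _ ≤ _ := h5
        _ = _ := by ring
    exact le_of_mul_le_mul_right h1 hM1
  have s5 : (2 * P1 ^ 2) ^ 2 ≤ (g ^ 2 * τ ^ 2) ^ 2 := by
    calc (2 * P1 ^ 2) ^ 2 = 4 * P1 ^ 4 := by ring
      _ ≤ 4 * (g ^ 4 * (P1 * P2) ^ 2) := by linarith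
      _ = g ^ 4 * (4 * (P1 * P2) ^ 2) := by ring
      _ ≤ g ^ 4 * τ ^ 4 := mul_le_mul_of_nonneg_left (h4.trans hle) (by positivity)
      _ = _ := by ring
  have s6 : 2 * P1 ^ 2 ≤ g ^ 2 * τ ^ 2 := abs_le_of_sq_le_sq' s5 (by positivity) |>.2
  have s7 : (a ^ 2) ^ 2 ≤ (16 * τ) ^ 2 := by
    have hg8 : g ^ 8 ≤ 64 := by
      have h2 : g ^ 2 = g + 1 := gold_sq
      have h1 := gold_lt
      have h4 : g ^ 4 = 3 * g + 2 := by
        calc g ^ 4 = (g ^ 2) ^ 2 := by ring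
          _ = (g + 1) ^ 2 := by rw [h2]
          _ = g ^ 2 + 2 * g + 1 := by ring
          _ = _ := by rw [h2]; ring
      calc g ^ 8 = (g ^ 4) ^ 2 := by ring
        _ = (3 * g + 2) ^ 2 := by rw [h4]
        _ ≤ 8 ^ 2 := pow_le_pow_left₀ (by positivity) (by linarith) 2
        _ = 64 := by norm_num
    calc (a ^ 2) ^ 2 ≤ (2 * g ^ 3 * P1) ^ 2 := pow_le_pow_left₀ (by positivity) s4 2
      _ = 2 * g ^ 6 * (2 * P1 ^ 2) := by ring
      _ ≤ 2 * g ^ 6 * (g ^ 2 * τ ^ 2) := mul_le_mul_of_nonneg_left s6 (by positivity)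
      _ = 2 * g ^ 8 * τ ^ 2 := by ring
      _ ≤ 2 * 64 * τ ^ 2 := by gcongr
      _ ≤ (16 * τ) ^ 2 := by nlinarith [sq_nonneg τ]
  exact abs_le_of_sq_le_sq' s7 (by positivity) |>.2

theorem id_real (a b c d : O) : fX a b c d ^ 2 + a ^ 2 * fM a b c d = 4 * fP a b c ^ 3 := by
  unfold fX fM fP fQ fR
  ring

theorem bnd {t : ℝ} (ht : 0 < t) {v : V} (hv : Nrm (t ^ 8) v) :
    v.1 ≠ 0 ∧ |e1 v.1| ≤ 4 * t ∧ |e2 v.1| ≤ 4 * t := by
  obtain ⟨a, b, c, d⟩ := v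
  have hid := id_real a b c d
  have h1 := congrArg e1 hid
  have h2 := congrArg e2 hid
  simp only [e1_add, e1_mul, e1_pow, e2_add, e2_mul, e2_pow] at h1 h2
  have hf1 : e1 (4 : O) = 4 := e1_ofNat 4
  have hf2 : e2 (4 : O) = 4 := e2_ofNat 4
  rw [hf1] at h1
  rw [hf2] at h2
  have hP1 := hv.ppos1
  have hP2 := hv.ppos2
  have hM1 := hv.mpos1
  have hM2 := hv.mpos2
  obtain ⟨-, -, hbP1, hbP2⟩ := hv.pbal
  obtain ⟨-, -, hbM1, hbM2⟩ := hv.mbal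
  have hs : (4 * (nm (fP a b c) : ℝ) ^ 2) ≤ (nm (fM a b c d) : ℝ) := by exact_mod_cast hv.small
  have hle := hv.mle
  simp only at hP1 hP2 hM1 hM2 hbP1 hbP2 hbM1 hbM2 hle
  rw [nm_eq, nm_eq] at hs
  rw [nm_eq] at hle
  have ht8 : t ^ 8 = (t ^ 2) ^ 4 := by ring
  rw [ht8] at hle
  refine ⟨?_, ?_, ?_⟩
  · intro h0
    have := hv.apos
    simp only at this h0
    rw [h0, e1_zero] at this
    exact lt_irrefl _ this
  · have := bnd_real hP1 hP2 hM1 hM2 hbP1 hbM2 hs (by positivity) hle h1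
    exact abs_le_of_sq_le_sq (by nlinarith) (by positivity)
  · have := bnd_real (τ := t ^ 2) hP2 hP1 hM2 hM1 hbP2 hbM1
      (by rw [mul_comm (e2 _) (e1 _), mul_comm (e2 _) (e1 _)]; exact hs)
      (by positivity) (by rw [mul_comm]; exact hle) h2
    exact abs_le_of_sq_le_sq (by nlinarith) (by positivity)

theorem bbox {N : ℝ} {v : V} (hv : Nrm N v) :
    0 ≤ e1 v.2.1 ∧ e1 v.2.1 ≤ 0 + 3 * |e1 v.1| ∧ -|e2 v.1| ≤ e2 v.2.1 ∧
      e2 v.2.1 ≤ -|e2 v.1| + 2 * |e2 v.1| := by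
  obtain ⟨s, u, hs0, hs1, hu0, hu1, h1, h2⟩ := hv.bred
  have ha := hv.apos
  have hg1 := gold_lt
  have hg2 := gold_gt
  have hc : Real.goldenConj = 1 - g := by
    have := Real.goldenRatio_add_goldenConj
    linarith
  rw [abs_of_pos ha, h1, h2, hc]
  have h3 : 0 ≤ s + u * Real.goldenRatio := by
    have : 0 < Real.goldenRatio := Real.goldenRatio_pos
    positivity
  have h4 : s + u * Real.goldenRatio ≤ 3 := by nlinarith
  have h5 : |s + u * (1 - g)| ≤ 1 := by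
    rw [abs_le]
    constructor <;> nlinarith
  have h6 : |e2 v.1 * (s + u * (1 - g))| ≤ |e2 v.1| := by
    rw [abs_mul]
    calc _ ≤ |e2 v.1| * 1 := mul_le_mul_of_nonneg_left h5 (abs_nonneg _)
      _ = _ := mul_one _
  have h7 := abs_le.1 h6
  refine ⟨mul_nonneg ha.le h3, by nlinarith, h7.1, by linarith [h7.2]⟩

theorem cus (hbox : BoxStmt) (hcuc : CucStmt) (hsma : SmaStmt) : CusStmt := by
  classical
  obtain ⟨C1, hC1, hcuc⟩ := hcuc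
  obtain ⟨C2, hC2, hsma⟩ := hsma
  refine ⟨7 * C1 * (C2 + 65), by positivity, ?_⟩
  intro N η t ht htN hη hη1
  subst htN
  have ht0 : 0 < t := lt_of_lt_of_le one_pos ht
  -- the range of a
  obtain ⟨hAfin, hAcard⟩ := hbox (-(4 * t)) (-(4 * t)) (8 * t) (8 * t) (by positivity) (by positivity)
  let A : Finset O := hAfin.toFinset.filter (fun a => a ≠ 0 ∧ |(nm a : ℝ)| ≤ η * t ^ 2)
  have hA : ∀ a, a ∈ A ↔ (|e1 a| ≤ 4 * t ∧ |e2 a| ≤ 4 * t) ∧ a ≠ 0 ∧ |(nm a : ℝ)| ≤ η * t ^ 2 := by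
    intro a
    simp only [A, Finset.mem_filter, Set.Finite.mem_toFinset, Set.mem_ofPred_eq, abs_le]
    constructor
    · rintro ⟨⟨h1, h2, h3, h4⟩, h5⟩
      exact ⟨⟨⟨h1, by linarith⟩, h3, by linarith⟩, h5⟩
    · rintro ⟨⟨⟨h1, h2⟩, h3, h4⟩, h5⟩
      exact ⟨⟨h1, by linarith, h3, by linarith⟩, h5⟩
  have hAc : (A.card : ℝ) ≤ 65 * t ^ 2 := by
    have h1 : A.card ≤ hAfin.toFinset.card := Finset.card_filter_le _ _
    rw [← Set.ncard_eq_toFinset_card _ hAfin] at h1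
    have h2 : (A.card : ℝ) ≤ 8 * t * (8 * t) + 1 := (Nat.cast_le.2 h1).trans hAcard
    nlinarith
  -- the range of b
  have hB := fun a : O => hbox 0 (-|e2 a|) (3 * |e1 a|) (2 * |e2 a|) (by positivity) (by positivity)
  let B : O → Finset O := fun a => (hB a).1.toFinset
  have hBc : ∀ a : O, a ≠ 0 → ((B a).card : ℝ) ≤ 7 * |(nm a : ℝ)| := by
    intro a ha
    have h1 := (hB a).2
    rw [Set.ncard_eq_toFinset_card _ (hB a).1] at h1
    have h2 := one_le_abs_mul ha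
    rw [nm_eq, abs_mul]
    calc _ ≤ 3 * |e1 a| * (2 * |e2 a|) + 1 := h1
      _ ≤ _ := by linarith
  -- the range of (c, d)
  have hW := fun a b : O => hcuc t a b ht
  let W : O → O → Finset (O × O) := fun a b => if h : a ≠ 0 then (hW a b h).1.toFinset else ∅
  let F : Finset V := A.biUnion fun a => (B a).biUnion fun b => (W a b).image
    fun w => ((a, b, w.1, w.2) : V)
  have hsub : {v : V | Nrm (t ^ 8) v ∧ |(nm v.1 : ℝ)| ≤ η * t ^ 2} ⊆ (F : Set V) := by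
    rintro ⟨a, b, c, d⟩ ⟨hv, hn⟩
    obtain ⟨h1, h2, h3⟩ := bnd ht0 hv
    obtain ⟨h4, h5, h6, h7⟩ := bbox hv
    simp only [F, Finset.coe_biUnion, Set.mem_iUnion, Finset.mem_coe, Finset.mem_image]
    refine ⟨a, (hA a).2 ⟨⟨h2, h3⟩, h1, hn⟩, b, ?_, (c, d), ?_, rfl⟩
    · simp only [B, Set.Finite.mem_toFinset, Set.mem_ofPred_eq]
      exact ⟨h4, h5, h6, h7⟩
    · simp only [W]
      rw [dif_pos h1]
      simp only [Set.Finite.mem_toFinset, Set.mem_ofPred_eq]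
      exact hv
  refine ⟨F.finite_toSet.subset hsub, ?_⟩
  have hFc : (F.card : ℝ) ≤ ∑ a ∈ A, 7 * C1 * (t ^ (22 / 3 : ℝ) * |(nm a : ℝ)| ^ (-(2 / 3) : ℝ) + t ^ 4) := by
    have h1 : F.card ≤ ∑ a ∈ A, ∑ b ∈ B a, (W a b).card :=
      Finset.card_biUnion_le.trans (Finset.sum_le_sum fun a _ =>
        Finset.card_biUnion_le.trans (Finset.sum_le_sum fun b _ => Finset.card_image_le))
    have h2 : (F.card : ℝ) ≤ ∑ a ∈ A, ∑ b ∈ B a, ((W a b).card : ℝ) := by exact_mod_cast h1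
    refine h2.trans (Finset.sum_le_sum fun a ha => ?_)
    obtain ⟨-, ha0, -⟩ := (hA a).1 ha
    have hn1 : 1 ≤ |(nm a : ℝ)| := by
      have := one_le_abs_mul ha0
      rw [nm_eq, abs_mul]
      exact this
    have hn0 : 0 < |(nm a : ℝ)| := lt_of_lt_of_le one_pos hn1
    have h3 : ∀ b ∈ B a, ((W a b).card : ℝ) ≤
        C1 * (t ^ (22 / 3 : ℝ) * |(nm a : ℝ)| ^ (-(5 / 3) : ℝ) + t ^ 4 / |(nm a : ℝ)|) := by
      intro b _
      have h4 := (hW a b ha0).2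
      rw [Set.ncard_eq_toFinset_card _ (hW a b ha0).1] at h4
      simp only [W]
      rw [dif_pos ha0]
      exact h4
    have h5 := Finset.sum_le_card_nsmul (B a) _ _ h3
    rw [nsmul_eq_mul] at h5
    refine h5.trans ?_
    have h6 : 0 ≤ C1 * (t ^ (22 / 3 : ℝ) * |(nm a : ℝ)| ^ (-(5 / 3) : ℝ) + t ^ 4 / |(nm a : ℝ)|) := by
      positivity
    refine (mul_le_mul_of_nonneg_right (hBc a ha0) h6).trans (le_of_eq ?_)
    have h7 : |(nm a : ℝ)| * |(nm a : ℝ)| ^ (-(5 / 3) : ℝ) = |(nm a : ℝ)| ^ (-(2 / 3) : ℝ) := by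
      conv_lhs => rw [← Real.rpow_one_add' hn0.le (by norm_num)]
      norm_num
    have h8 : |(nm a : ℝ)| * (t ^ 4 / |(nm a : ℝ)|) = t ^ 4 := by field_simp
    calc 7 * |(nm a : ℝ)| * (C1 * (t ^ (22 / 3 : ℝ) * |(nm a : ℝ)| ^ (-(5 / 3) : ℝ) +
          t ^ 4 / |(nm a : ℝ)|))
        = 7 * C1 * (t ^ (22 / 3 : ℝ) * (|(nm a : ℝ)| * |(nm a : ℝ)| ^ (-(5 / 3) : ℝ)) +
          |(nm a : ℝ)| * (t ^ 4 / |(nm a : ℝ)|)) := by ring
      _ = _ := by rw [h7, h8]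
  have hn : ({v : V | Nrm (t ^ 8) v ∧ |(nm v.1 : ℝ)| ≤ η * t ^ 2}.ncard : ℝ) ≤ F.card := by
    have := Set.ncard_le_ncard hsub F.finite_toSet
    rw [Set.ncard_coe_finset] at this
    exact_mod_cast this
  refine (hn.trans hFc).trans ?_
  have hs := hsma t η A ht hη hη1 (fun a ha => by
    obtain ⟨⟨h1, h2⟩, h3, h4⟩ := (hA a).1 ha
    exact ⟨h3, h1, h2, h4⟩)
  rw [← Finset.mul_sum, Finset.sum_add_distrib, ← Finset.mul_sum, Finset.sum_const, nsmul_eq_mul]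
  have h9 : t ^ (22 / 3 : ℝ) * (C2 * η ^ (1 / 4 : ℝ) * t ^ (2 / 3 : ℝ)) = C2 * (η ^ (1 / 4 : ℝ) * t ^ 8) := by
    have : t ^ (22 / 3 : ℝ) * t ^ (2 / 3 : ℝ) = t ^ 8 := by
      rw [← Real.rpow_add ht0]
      norm_num
    calc _ = C2 * η ^ (1 / 4 : ℝ) * (t ^ (22 / 3 : ℝ) * t ^ (2 / 3 : ℝ)) := by ring
      _ = _ := by rw [this]; ring
  have h10 : t ^ (22 / 3 : ℝ) * ∑ a ∈ A, |(nm a : ℝ)| ^ (-(2 / 3) : ℝ) ≤
      C2 * (η ^ (1 / 4 : ℝ) * t ^ 8) := by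
    rw [← h9]
    exact mul_le_mul_of_nonneg_left hs (by positivity)
  have h11 : (A.card : ℝ) * t ^ 4 ≤ 65 * t ^ 7 := by
    calc (A.card : ℝ) * t ^ 4 ≤ 65 * t ^ 2 * t ^ 4 := mul_le_mul_of_nonneg_right hAc (by positivity)
      _ = 65 * t ^ 6 := by ring
      _ ≤ 65 * t ^ 7 := by
          have := pow_le_pow_right₀ ht (by norm_num : 6 ≤ 7)
          linarith
  have h12 : 0 ≤ η ^ (1 / 4 : ℝ) * t ^ 8 := by positivity
  have h13 : 0 ≤ t ^ 7 := by positivity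
  calc _ ≤ 7 * C1 * (C2 * (η ^ (1 / 4 : ℝ) * t ^ 8) + 65 * t ^ 7) := by
        apply mul_le_mul_of_nonneg_left _ (by positivity)
        exact add_le_add h10 h11
    _ ≤ 7 * C1 * ((C2 + 65) * (η ^ (1 / 4 : ℝ) * t ^ 8 + t ^ 7)) := by
        apply mul_le_mul_of_nonneg_left _ (by positivity)
        nlinarith
    _ = _ := by ring

end Pool.Agent.Leo4.H56
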